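import Pool.Agent.BKW.Stmts

set_option autoImplicit false

open Real

open scoped BigOperators

namespace Pool.Agent.BKW.H27

open Pool.Agent.BKW

theorem prod_succ {N L : ℕ} (b : Fin N → ℤ) (b0 : ℤ) (u : Ix N L) (μ : Fin N → ℕ) (i : Fin N) :
    ∏ j, cc b b0 u j ^ (μ + Pi.single i 1 : Fin N → ℕ) j = (∏ j, cc b b0 u j ^ μ j) * cc b b0 u i := by
  have h : ∀ j, cc b b0 u j ^ (μ + Pi.single i 1 : Fin N → ℕ) j =
      cc b b0 u j ^ μ j * cc b b0 u j ^ (Pi.single i 1 : Fin N → ℕ) j := by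
    intro j
    rw [Pi.add_apply, pow_add]
  rw [Finset.prod_congr rfl (fun j _ => h j), Finset.prod_mul_distrib]
  congr 1
  rw [Fintype.prod_eq_single i]
  · rw [Pi.single_eq_same, pow_one]
  · intro j hj
    rw [Pi.single_eq_of_ne hj, pow_zero]

theorem sum_succ {N : ℕ} (μ : Fin N → ℕ) (i : Fin N) :
    ∑ j, (μ + Pi.single i 1 : Fin N → ℕ) j = ∑ j, μ j + 1 := by
  simp only [Pi.add_apply, Finset.sum_add_distrib]
  congr 1
  rw [Fintype.sum_eq_single i]
  · rw [Pi.single_eq_same]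
  · intro j hj
    rw [Pi.single_eq_of_ne hj]

theorem ff_succ {N L : ℕ} (a : Fin N → ℕ) (b : Fin N → ℤ) (b0 : ℤ) (p : Ix N L → ℤ)
    (μ : Fin N → ℕ) (t : ℕ) (s : ℝ) :
    ff a b b0 p μ (t + 1) s =
      (∑ i, log (a i) * ff a b b0 p (μ + Pi.single i 1) t s) / (b0 : ℝ) := by
  unfold ff
  simp only [prod_succ]
  have h : ∀ i : Fin N, log (a i) * ∑ u : Ix N L, (p u : ℝ) *
      (((∏ j, cc b b0 u j ^ μ j) * cc b b0 u i : ℤ) : ℝ) * th a b b0 u ^ t *
        exp (s * th a b b0 u) =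
      ∑ u : Ix N L, (((p u : ℝ) * ((∏ j, cc b b0 u j ^ μ j : ℤ) : ℝ) * th a b b0 u ^ t *
        exp (s * th a b b0 u)) * (((cc b b0 u i : ℤ) : ℝ) * log (a i))) := by
    intro i
    rw [Finset.mul_sum]
    apply Finset.sum_congr rfl
    intro u _
    rw [Int.cast_mul]
    ring
  rw [Finset.sum_congr rfl (fun i _ => h i), Finset.sum_comm, Finset.sum_div]
  apply Finset.sum_congr rfl
  intro u _
  rw [← Finset.mul_sum, mul_div_assoc]
  have e : (∑ i, ((cc b b0 u i : ℤ) : ℝ) * log (a i)) / (b0 : ℝ) = th a b b0 u := rfl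
  rw [e, pow_succ]
  ring

theorem drv : DrvStmt := by
  intro N L B a a0 b b0 l D p H s η hη h0
  have hb0 : (1 : ℝ) ≤ |(b0 : ℝ)| := by
    have h1 : 1 ≤ b0.natAbs := by rw [D.hb0]; exact D.B1
    have h2 : (1 : ℤ) ≤ |b0| := by
      rw [Int.abs_eq_natAbs]
      exact_mod_cast h1
    exact_mod_cast h2
  have hl : (0 : ℝ) ≤ l := le_trans zero_le_one D.l1
  intro t
  induction t with
  | zero =>
    intro μ hμ
    rw [pow_zero, one_mul]
    exact h0 μ (by simpa using hμ)
  | succ t ih =>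
    intro μ hμ
    rw [ff_succ, abs_div]
    have hsum : |∑ i, log (a i) * ff a b b0 p (μ + Pi.single i 1) t s| ≤
        ((N : ℝ) * l) ^ (t + 1) * η := by
      refine le_trans (Finset.abs_sum_le_sum_abs _ _) ?_
      have hi : ∀ i ∈ (Finset.univ : Finset (Fin N)),
          |log (a i) * ff a b b0 p (μ + Pi.single i 1) t s| ≤ l * (((N : ℝ) * l) ^ t * η) := by
        intro i _
        rw [abs_mul]
        have hla : 0 ≤ log (a i) := log_nonneg (by exact_mod_cast D.a1 i)
        have h2 : |log (a i)| ≤ l := by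
          rw [abs_of_nonneg hla]
          exact D.la i
        have h3 := ih (μ + Pi.single i 1) (by rw [sum_succ]; omega)
        exact mul_le_mul h2 h3 (abs_nonneg _) hl
      refine le_trans (Finset.sum_le_sum hi) ?_
      rw [Finset.sum_const, Finset.card_univ, Fintype.card_fin, nsmul_eq_mul]
      apply le_of_eq
      ring
    refine le_trans (div_le_self (abs_nonneg _) hb0) hsum

end Pool.Agent.BKW.H27
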